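import Pool.Agent.TSR.Final

/-!
# Proper purely 1-unrectifiable spaces, trees and spaces built from them are not test spaces
-/

set_option autoImplicit false

namespace Pool.Agent.Results.MP_bbb702_an.ProperFamilies

open Pool.Agent.TSR

/-- Let `E` be a separable reflexive Banach space, `c > 0` and `(M i)` a family of proper metric
spaces. Suppose every `M i` has 1-Lipschitz maps `u i` into `E`, `t i` into a proper 0-hyperbolic
metric space `T i` and `p i` into a proper purely 1-unrectifiable metric space `P i` such that
`c * dist x y` is at most the maximum of the four numbers `dist (u i x) (u i y)`,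
`dist (t i x) (t i y)`, `dist (p i x) (p i y)` and `gap x y`, for all `x, y` in `M i`. Then `(M i)`
is not a family of test spaces for reflexivity. -/
theorem result (E : Type) [NormedAddCommGroup E] [NormedSpace ℝ E] [CompleteSpace E]
    [TopologicalSpace.SeparableSpace E] (hE : IsReflexive E) (c : ℝ) (hc : 0 < c) (ι : Type)
    (M T P : ι → Type) [∀ i, MetricSpace (M i)] [∀ i, ProperSpace (M i)]
    [∀ i, MetricSpace (T i)] [∀ i, ProperSpace (T i)]
    [∀ i, MetricSpace (P i)] [∀ i, ProperSpace (P i)]
    (hT : ∀ i, FourPoint (T i)) (hP : ∀ i, PurelyUnrectifiable (P i))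
    (u : ∀ i, M i → E) (t : ∀ i, M i → T i) (p : ∀ i, M i → P i)
    (hu : ∀ i, ∀ x y : M i, dist (u i x) (u i y) ≤ dist x y)
    (ht : ∀ i, ∀ x y : M i, dist (t i x) (t i y) ≤ dist x y)
    (hp : ∀ i, ∀ x y : M i, dist (p i x) (p i y) ≤ dist x y)
    (H : ∀ i, ∀ x y : M i, c * dist x y ≤
      max (max (dist (u i x) (u i y)) (dist (t i x) (t i y)))
        (max (dist (p i x) (p i y)) (gap x y))) :
    ¬ IsTestFamily M :=
  main E hE hc M T P hT hP u t p hu ht hp H

end Pool.Agent.Results.MP_bbb702_an.ProperFamilies
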